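import Pool.Agent.X188.BT3

/-! Möbius disjointness for automorphisms of C*-algebras with bounded trace which fix the
spectrum. -/

set_option autoImplicit false

open Filter Topology Finset

namespace Pool.Agent.Results.MP_7a8f48_an.BoundedTrace

universe u v w

/-- The operator `T` has Hilbert-Schmidt norm at most `K`: `∑ ‖T e_k‖² ≤ K²` for each finite
orthonormal family `e`. -/
def HilbertSchmidtLE {H : Type v} [NormedAddCommGroup H] [InnerProductSpace ℂ H] (T : H →L[ℂ] H)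
    (K : ℝ) : Prop :=
  ∀ (n : ℕ) (e : Fin n → H), Orthonormal ℂ e → ∑ k, ‖T (e k)‖ ^ 2 ≤ K ^ 2

/-- `π` is a representation of `A` on the Hilbert space `H`. -/
structure IsRep {A : Type u} [NonUnitalCStarAlgebra A] {H : Type v} [NormedAddCommGroup H]
    [InnerProductSpace ℂ H] (π : A → H →L[ℂ] H) : Prop where
  add : ∀ a b x, π (a + b) x = π a x + π b x
  smul : ∀ (c : ℂ) a x, π (c • a) x = c • π a x
  mul : ∀ a b x, π (a * b) x = π a (π b x)
  star : ∀ a x y, inner ℂ (π a x) y = inner ℂ x (π (star a) y)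

/-- A separating family of representations `π i` of `A` on Hilbert spaces `H i`. -/
structure Separating {A : Type u} [NonUnitalCStarAlgebra A] {ι : Type w} {H : ι → Type v}
    [∀ i, NormedAddCommGroup (H i)] [∀ i, InnerProductSpace ℂ (H i)]
    (π : ∀ i, A → H i →L[ℂ] H i) : Prop where
  rep : ∀ i, IsRep (π i)
  separating : ∀ a, (∀ i, π i a = 0) → a = 0

/-- The elements `a` for which the Hilbert-Schmidt norms of all `π i a` have a common bound are
dense in `A`. For the family of all irreducible representations (up to equivalence) this says that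
`A` has bounded trace. -/
def BoundedTrace {A : Type u} [NonUnitalCStarAlgebra A] {ι : Type w} {H : ι → Type v}
    [∀ i, NormedAddCommGroup (H i)] [∀ i, InnerProductSpace ℂ (H i)]
    (π : ∀ i, A → H i →L[ℂ] H i) : Prop :=
  Dense {a : A | ∃ K : ℝ, ∀ i, HilbertSchmidtLE (π i a) K}

/-- The representations `π i` and `π i ∘ α ^ m` are unitarily equivalent for all `i`: the power
`α ^ m` acts trivially on the equivalence classes of the `π i`. -/
def FixesClasses {A : Type u} [NonUnitalCStarAlgebra A] {ι : Type w} {H : ι → Type v}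
    [∀ i, NormedAddCommGroup (H i)] [∀ i, InnerProductSpace ℂ (H i)]
    (π : ∀ i, A → H i →L[ℂ] H i) (α : A ≃⋆ₐ[ℂ] A) (m : ℕ) : Prop :=
  ∀ i, ∃ U : H i ≃ₗᵢ[ℂ] H i, ∀ a x, π i (α^[m] a) (U x) = U (π i a x)

/-- the sum `∑_{n ≤ N} μ(n) e(nθ) αⁿ(x)` -/
noncomputable def moebiusSum {A : Type u} [NonUnitalCStarAlgebra A] (α : A ≃⋆ₐ[ℂ] A) (N : ℕ)
    (θ : ℝ) (x : A) : A :=
  ∑ n ∈ Icc 1 N, (((ArithmeticFunction.moebius n : ℤ) : ℂ) *
    Complex.exp (2 * Real.pi * Complex.I * n * θ)) • α^[n] x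

/-- Möbius disjointness of the automorphism `α`: for each `x` the averages of `μ(n) e(nθ) αⁿ(x)`
tend to zero in norm, uniformly in `θ`, and those of `μ(n) ρ(αⁿ(x))` tend to zero for each bounded
functional `ρ`, in particular for each state. -/
def MobiusDisjoint {A : Type u} [NonUnitalCStarAlgebra A] (α : A ≃⋆ₐ[ℂ] A) : Prop :=
  ∀ x : A, (∀ ε : ℝ, 0 < ε → ∃ N₀ : ℕ, ∀ N ≥ N₀, ∀ θ : ℝ, ‖moebiusSum α N θ x‖ ≤ ε * N) ∧
    ∀ ρ : A →L[ℂ] ℂ, Tendsto (fun N : ℕ => (1 / (N : ℂ)) *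
      ∑ n ∈ Icc 1 N, ((ArithmeticFunction.moebius n : ℤ) : ℂ) * ρ (α^[n] x)) atTop (𝓝 0)

/-- the bound for elements with bounded Hilbert-Schmidt norms, with constants `C U` which do not
depend on the algebra or the automorphism -/
def UniformBound (C : ℕ → ℝ) : Prop :=
  ∀ (A : Type u) [NonUnitalCStarAlgebra A] (ι : Type w) (H : ι → Type v)
    [∀ i, NormedAddCommGroup (H i)] [∀ i, InnerProductSpace ℂ (H i)] [∀ i, CompleteSpace (H i)]
    (π : ∀ i, A → H i →L[ℂ] H i) (α : A ≃⋆ₐ[ℂ] A) (m : ℕ),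
    Separating π → 0 < m → FixesClasses π α m →
    ∀ (a : A) (K : ℝ), 0 ≤ K → (∀ i, HilbertSchmidtLE (π i a) K) →
      ∀ U N : ℕ, 2 ≤ N → ∀ θ : ℝ,
        ‖moebiusSum α N θ a‖ ≤ C U * (m * K) * (N / Real.log N ^ U)

theorem iter_pow {A : Type u} [NonUnitalCStarAlgebra A] (α : A ≃⋆ₐ[ℂ] A) (n : ℕ) (x : A) :
    α^[n] x = (α ^ n) x := by
  induction n with
  | zero => rfl
  | succ n ih =>
    rw [Function.iterate_succ_apply', ih, pow_succ']
    rfl

theorem moebiusSum_eq {A : Type u} [NonUnitalCStarAlgebra A] (α : A ≃⋆ₐ[ℂ] A) (N : ℕ)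
    (θ : ℝ) (x : A) : moebiusSum α N θ x = ∑ n ∈ Icc 1 N, (((ArithmeticFunction.moebius n : ℤ) : ℂ) *
    Complex.exp (2 * Real.pi * Complex.I * n * θ)) • (α ^ n) x := by
  unfold moebiusSum
  exact sum_congr rfl fun n _ => by rw [iter_pow]

/-- the *-homomorphism of a representation -/
noncomputable def toHom {A : Type u} [NonUnitalCStarAlgebra A] {H : Type v} [NormedAddCommGroup H]
    [InnerProductSpace ℂ H] [CompleteSpace H] {π : A → H →L[ℂ] H} (h : IsRep π) :
    A →⋆ₙₐ[ℂ] (H →L[ℂ] H) where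
  toFun := π
  map_smul' c a := by ext x; exact h.smul c a x
  map_zero' := by
    ext x
    have := h.smul 0 0 x
    simpa using this
  map_add' a b := by ext x; exact h.add a b x
  map_mul' a b := by ext x; exact h.mul a b x
  map_star' a := by
    rw [ContinuousLinearMap.star_eq_adjoint, ContinuousLinearMap.eq_adjoint_iff]
    intro x y
    have := h.star (star a) x y
    rwa [star_star] at this

theorem fixes_unitary {A : Type u} [NonUnitalCStarAlgebra A] {H : Type v} [NormedAddCommGroup H]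
    [InnerProductSpace ℂ H] [CompleteSpace H] {π : A → H →L[ℂ] H} (h : IsRep π) (β : A ≃⋆ₐ[ℂ] A)
    (U : H ≃ₗᵢ[ℂ] H) (hU : ∀ a x, π (β a) (U x) = U (π a x)) :
    ∃ V : unitary (H →L[ℂ] H), ∀ a, toHom h (β a) =
      (V : H →L[ℂ] H) * toHom h a * star (V : H →L[ℂ] H) := by
  refine ⟨Unitary.linearIsometryEquiv.symm U, fun a => ?_⟩
  set V := Unitary.linearIsometryEquiv.symm U with hV
  have h1 : ∀ x, (V : H →L[ℂ] H) x = U x := fun x => by
    rw [hV]
    rfl
  have h2 : (V : H →L[ℂ] H) * star (V : H →L[ℂ] H) = 1 := V.2.2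
  have h3 : toHom h (β a) * (V : H →L[ℂ] H) = (V : H →L[ℂ] H) * toHom h a := by
    ext x
    show π (β a) ((V : H →L[ℂ] H) x) = (V : H →L[ℂ] H) (π a x)
    rw [h1, h1, hU]
  rw [← h3, mul_assoc, h2, mul_one]

theorem exp_eq (n : ℕ) (θ : ℝ) : Complex.exp (2 * Real.pi * Complex.I * n * θ) =
    Pool.Agent.Helper188.NCM.ee (θ * n) := by
  unfold Pool.Agent.Helper188.NCM.ee
  congr 1
  push_cast
  ring

theorem fourier_eq (n : ℕ) (θ : ℝ) : Pool.Agent.Helper188.NCM.ee (θ * n) =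
    fourier (n : ℤ) (θ : UnitAddCircle) := by
  rw [fourier_coe_apply]
  unfold Pool.Agent.Helper188.NCM.ee
  congr 1
  push_cast
  ring

theorem norm_aut {A : Type u} [NonUnitalCStarAlgebra A] (α : A ≃⋆ₐ[ℂ] A) (n : ℕ) (x : A) :
    ‖(α ^ n) x‖ = ‖x‖ := StarAlgEquiv.norm_map (α ^ n) x

theorem norm_term {A : Type u} [NonUnitalCStarAlgebra A] (α : A ≃⋆ₐ[ℂ] A) (N : ℕ) (θ : ℝ)
    (x : A) : ‖moebiusSum α N θ x‖ ≤ N * ‖x‖ := by
  rw [moebiusSum_eq]
  refine (norm_sum_le _ _).trans ?_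
  calc ∑ n ∈ Icc 1 N, ‖(((ArithmeticFunction.moebius n : ℤ) : ℂ) *
        Complex.exp (2 * Real.pi * Complex.I * n * θ)) • (α ^ n) x‖
      ≤ ∑ n ∈ Icc 1 N, ‖x‖ := by
        refine sum_le_sum fun n _ => ?_
        rw [norm_smul, norm_mul, exp_eq, Pool.Agent.X188.BT.norm_ee', mul_one, norm_aut]
        have h1 : ‖((ArithmeticFunction.moebius n : ℤ) : ℂ)‖ ≤ 1 := by
          rw [Complex.norm_intCast]
          exact_mod_cast ArithmeticFunction.abs_moebius_le_one
        exact mul_le_of_le_one_left (norm_nonneg _) h1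
    _ = N * ‖x‖ := by simp

theorem disjoint_of_norm {A : Type u} [NonUnitalCStarAlgebra A] (α : A ≃⋆ₐ[ℂ] A)
    (h : ∀ x : A, ∀ ε : ℝ, 0 < ε → ∃ N₀ : ℕ, ∀ N ≥ N₀, ∀ θ : ℝ, ‖moebiusSum α N θ x‖ ≤ ε * N) :
    MobiusDisjoint α := by
  intro x
  refine ⟨h x, fun ρ => ?_⟩
  rw [Metric.tendsto_atTop]
  intro ε hε
  obtain ⟨N₀, h0⟩ := h x (ε / (2 * (‖ρ‖ + 1))) (by positivity)
  refine ⟨max N₀ 1, fun N hN => ?_⟩
  have hN0 : N₀ ≤ N := le_trans (le_max_left _ _) hN
  have hN1 : 1 ≤ N := le_trans (le_max_right _ _) hN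
  have hNr : (0 : ℝ) < N := by exact_mod_cast hN1
  have h1 := h0 N hN0 0
  have h1' : ‖∑ n ∈ Icc 1 N, ((ArithmeticFunction.moebius n : ℤ) : ℂ) • α^[n] x‖ ≤
      ε / (2 * (‖ρ‖ + 1)) * N := by simpa [moebiusSum] using h1
  have e : ∑ n ∈ Icc 1 N, ((ArithmeticFunction.moebius n : ℤ) : ℂ) * ρ (α^[n] x) =
      ρ (∑ n ∈ Icc 1 N, ((ArithmeticFunction.moebius n : ℤ) : ℂ) • α^[n] x) := by
    rw [map_sum]
    exact Finset.sum_congr rfl fun n _ => by rw [map_smul, smul_eq_mul]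
  rw [dist_zero_right, e, norm_mul, norm_div, norm_one, Complex.norm_natCast]
  calc 1 / (N : ℝ) * ‖ρ (∑ n ∈ Icc 1 N, ((ArithmeticFunction.moebius n : ℤ) : ℂ) • α^[n] x)‖
      ≤ 1 / (N : ℝ) * (‖ρ‖ * (ε / (2 * (‖ρ‖ + 1)) * N)) := by
        gcongr
        exact (ρ.le_opNorm _).trans (mul_le_mul_of_nonneg_left h1' (norm_nonneg _))
    _ = ε / 2 * (‖ρ‖ / (‖ρ‖ + 1)) := by field_simp
    _ ≤ ε / 2 * 1 := by
        gcongr
        rw [div_le_one (by positivity)]
        linarith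
    _ < ε := by linarith

theorem uniformBound : ∃ C : ℕ → ℝ, UniformBound.{u, v, w} C := by
  obtain ⟨C, hC0, hC⟩ := Pool.Agent.TH327.Thin.base
  refine ⟨C, fun A _ ι H _ _ _ π α m hsep hm hU a K hK ha U N hN θ => ?_⟩
  have h := Pool.Agent.X188.BT.mob_bound (fun i => toHom (hsep.rep i)) hsep.separating α m hm
    (fun i => by
      obtain ⟨V, hV⟩ := hU i
      simp_rw [iter_pow] at hV
      exact fixes_unitary (hsep.rep i) (α ^ m) V hV) a K hK ha N
    (fun n => ((ArithmeticFunction.moebius n : ℤ) : ℂ) * Pool.Agent.Helper188.NCM.ee (θ * n))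
    (C U * (N / Real.log N ^ U)) (mul_nonneg (hC0 U) (by
      have : 0 ≤ Real.log N := Real.log_natCast_nonneg N
      positivity)) (fun φ => by
      have h1 := hC U N hN N le_rfl ((θ + φ : ℝ) : UnitAddCircle)
      refine le_trans (le_of_eq ?_) h1
      congr 1
      refine sum_congr rfl fun n _ => ?_
      rw [← fourier_eq, mul_assoc, ← Pool.Agent.H398R3.NCM.ee_add]
      congr 2
      ring)
  rw [moebiusSum_eq]
  simp_rw [exp_eq]
  refine h.trans (le_of_eq ?_)
  ring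

theorem disjoint_main {A : Type u} [NonUnitalCStarAlgebra A] {ι : Type w} {H : ι → Type v}
    [∀ i, NormedAddCommGroup (H i)] [∀ i, InnerProductSpace ℂ (H i)] [∀ i, CompleteSpace (H i)]
    (π : ∀ i, A → H i →L[ℂ] H i) (α : A ≃⋆ₐ[ℂ] A) (m : ℕ)
    (hs : Separating π) (hd : BoundedTrace π) (hm : 0 < m) (hU : FixesClasses π α m) :
    MobiusDisjoint α := by
  refine disjoint_of_norm α ?_
  intro x ε hε
  obtain ⟨C, hC⟩ := uniformBound.{u, v, w}
  obtain ⟨y, ⟨K, hy⟩, hxy⟩ := hd.exists_dist_lt x (half_pos hε)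
  rw [dist_eq_norm] at hxy
  have hy' : ∀ i, HilbertSchmidtLE (π i y) |K| := fun i n e he => by
    rw [sq_abs]
    exact hy i n e he
  have h1 := hC A ι H π α m hs hm hU y |K| (abs_nonneg K) hy' 1
  have hlim : Tendsto (fun N : ℕ => C 1 * (m * |K|) / Real.log N ^ 1) atTop (𝓝 0) := by
    simp only [pow_one]
    exact Tendsto.div_atTop tendsto_const_nhds
      (Real.tendsto_log_atTop.comp tendsto_natCast_atTop_atTop)
  obtain ⟨N1, h2⟩ := eventually_atTop.1 (hlim.eventually (gt_mem_nhds (half_pos hε)))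
  refine ⟨max N1 2, fun N hN θ => ?_⟩
  have hN1 : N1 ≤ N := le_trans (le_max_left _ _) hN
  have hN2 : 2 ≤ N := le_trans (le_max_right _ _) hN
  have e : moebiusSum α N θ x = moebiusSum α N θ (x - y) + moebiusSum α N θ y := by
    simp only [moebiusSum_eq]
    rw [← sum_add_distrib]
    refine sum_congr rfl fun n _ => ?_
    rw [← smul_add, ← map_add, sub_add_cancel]
  rw [e]
  refine (norm_add_le _ _).trans ?_
  have h3 := norm_term α N θ (x - y)
  have h4 := h1 N hN2 θ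
  have h5 : C 1 * (m * |K|) * (N / Real.log N ^ 1) = C 1 * (m * |K|) / Real.log N ^ 1 * N := by ring
  have h6 : C 1 * (m * |K|) / Real.log N ^ 1 * N ≤ ε / 2 * N :=
    mul_le_mul_of_nonneg_right (h2 N hN1).le (Nat.cast_nonneg _)
  have h7 : (N : ℝ) * ‖x - y‖ ≤ N * (ε / 2) := by gcongr
  linarith

/-- **Möbius disjointness for automorphisms of C*-algebras with bounded trace which fix the
spectrum.** (1) For the elements `a` whose images have Hilbert-Schmidt norm at most `K`, the sums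
`∑ μ(n) e(nθ) αⁿ(a)` are at most `C U * (m K) * N / (log N) ^ U` in norm, with constants `C U` that
do not depend on anything else. (2) Each automorphism `α` of a C*-algebra of bounded trace, some
power `α ^ m` of which fixes the spectrum, is Möbius disjoint. -/
theorem result :
    (∃ C : ℕ → ℝ, UniformBound.{u, v, w} C) ∧
    ∀ (A : Type u) [NonUnitalCStarAlgebra A] (ι : Type w) (H : ι → Type v)
      [∀ i, NormedAddCommGroup (H i)] [∀ i, InnerProductSpace ℂ (H i)] [∀ i, CompleteSpace (H i)]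
      (π : ∀ i, A → H i →L[ℂ] H i) (α : A ≃⋆ₐ[ℂ] A) (m : ℕ),
      Separating π → BoundedTrace π → 0 < m → FixesClasses π α m → MobiusDisjoint α :=
  ⟨uniformBound, fun _ _ _ _ _ _ _ π α m hs hd hm hU => disjoint_main π α m hs hd hm hU⟩

end Pool.Agent.Results.MP_7a8f48_an.BoundedTrace
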