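import Pool.Agent.X84.Ns.Cst

/-!
# Logarithmic Möbius disjointness in norm and Arveson spectra of measure zero

The proof uses the two-point correlations of the Möbius function in logarithmic mean (Tao's theorem,
proved in the library).
-/

set_option autoImplicit false

open Filter Topology MeasureTheory Finset

namespace Pool.Agent.Results.MP_7a8f48_an.NullArvesonSpectrum

universe u v

/-- the Möbius function -/
def mu (n : ℕ) : ℤ := ArithmeticFunction.moebius n

/-- the Liouville function -/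
def lam (n : ℕ) : ℤ := (-1) ^ ArithmeticFunction.cardFactors n

/-- `e t = exp (2 π i t)` -/
noncomputable def e (t : ℝ) : ℂ := Complex.exp (2 * Real.pi * Complex.I * t)

/-- the normalised Lebesgue measure of `K ⊆ ℝ/ℤ` -/
noncomputable def meas (K : Set UnitAddCircle) : ℝ := (volume K).toReal

/-- The sequence `a` has its spectrum in `K`: it is annihilated by each absolutely summable
`c : ℤ → ℂ` whose Fourier series `∑ c n exp (2 π i n η)` vanishes for all `η` in an open set
which contains `K` (`fourier n η` is `exp (2 π i n η)`). -/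
def SpectrumIn {X : Type u} [NormedAddCommGroup X] [NormedSpace ℂ X] (K : Set UnitAddCircle)
    (a : ℤ → X) : Prop :=
  ∀ c : ℤ → ℂ, Summable (fun n => ‖c n‖) →
    (∃ U : Set UnitAddCircle, IsOpen U ∧ K ⊆ U ∧ ∀ η ∈ U, ∑' n, c n * fourier n η = 0) →
    ∑' n, c n • a n = 0

section element

variable {A : Type u} [NonUnitalCStarAlgebra A]

/-- The element `x` has its Arveson spectrum with respect to the automorphism `α` in `K`. -/
def ArvesonIn (α : A ≃⋆ₐ[ℂ] A) (K : Set UnitAddCircle) (x : A) : Prop :=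
  SpectrumIn K (fun n : ℤ => (α ^ n) x)

/-- the elements with Arveson spectrum in a closed set of measure zero -/
def Null (α : A ≃⋆ₐ[ℂ] A) : Set A :=
  {x | ∃ K : Set UnitAddCircle, IsClosed K ∧ volume K = 0 ∧ ArvesonIn α K x}

/-- the elements with Arveson spectrum in a closed subset of the group `G` -/
def InGroup (α : A ≃⋆ₐ[ℂ] A) (G : AddSubgroup UnitAddCircle) : Set A :=
  {x | ∃ K : Set UnitAddCircle, IsClosed K ∧ K ⊆ G ∧ ArvesonIn α K x}

/-- the closed linear span of `D` -/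
def ClosedSpan (D : Set A) : Set A := ((Submodule.span ℂ D).topologicalClosure : Submodule ℂ A)

/-- `D` generates the algebra -/
def Generates (D : Set A) : Prop :=
  Dense ((NonUnitalStarAlgebra.adjoin ℂ D : NonUnitalStarSubalgebra ℂ A) : Set A)

/-- the sum of `f(m) e(mθ) αᵐ(x)` over the `m` in `s` -/
noncomputable def twistedSum (α : A ≃⋆ₐ[ℂ] A) (f : ℕ → ℤ) (θ : ℝ) (s : Finset ℕ) (x : A) : A :=
  ∑ m ∈ s, ((f m : ℂ) * e (m * θ)) • (α^[m]) x

/-- Disjointness of the orbit of `x` from `f` in norm, uniformly in the twist by `e(mθ)`: the sums over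
the windows of length `M` are `o(M)` in logarithmic mean over their position, and the logarithmic
means over `[1, N]` tend to zero. -/
def NormDisjoint (α : A ≃⋆ₐ[ℂ] A) (f : ℕ → ℤ) (x : A) : Prop :=
  ∀ ε : ℝ, 0 < ε →
    (∃ M₀ : ℕ, ∀ M : ℕ, M₀ ≤ M → ∃ N₀ : ℕ, ∀ N : ℕ, N₀ ≤ N → ∀ θ : ℝ,
      ∑ n ∈ Icc 1 N, (1 / (n : ℝ)) * ‖twistedSum α f θ (Ico n (n + M)) x‖ ≤
        ε * M * Real.log N) ∧
    ∃ N₀ : ℕ, ∀ N : ℕ, N₀ ≤ N → ∀ θ : ℝ,
      ‖∑ n ∈ Icc 1 N, (1 / (n : ℂ)) • twistedSum α f θ {n} x‖ ≤ ε * Real.log N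

open Classical in
/-- a set of positive integers of logarithmic density one -/
def LogDensityOne (s : Set ℕ) : Prop :=
  Tendsto (fun Z : ℕ => (1 / Real.log (Z : ℝ)) * ∑ n ∈ (Icc 1 Z).filter (· ∈ s), (1 / (n : ℝ)))
    atTop (𝓝 1)

/-- For each separable set `D` of elements of `M` there is one set `s` of logarithmic density one
such that the averages of `f(n) αⁿ(x)` over `[1, N]` tend to zero in norm for `N → ∞` in `s`, for all
`x` in `D`. -/
def AlongDensityOne (α : A ≃⋆ₐ[ℂ] A) (f : ℕ → ℤ) (M : Set A) : Prop :=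
  ∀ D ⊆ M, TopologicalSpace.IsSeparable D → ∃ s : Set ℕ, LogDensityOne s ∧ ∀ x ∈ D,
    Tendsto (fun N : ℕ => (1 / (N : ℂ)) • ∑ n ∈ Icc 1 N, (f n : ℂ) • (α^[n]) x) (atTop ⊓ 𝓟 s) (𝓝 0)

/-- Disjointness from `f` of all elements of `M`; the last part, for all bounded functionals and thus
for all states, is the conclusion of the problem with logarithmic averages. -/
def LogDisjoint (α : A ≃⋆ₐ[ℂ] A) (f : ℕ → ℤ) (M : Set A) : Prop :=
  (∀ x ∈ M, NormDisjoint α f x) ∧ AlongDensityOne α f M ∧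
  ∀ (ρ : A →L[ℂ] ℂ), ∀ x ∈ M, Tendsto (fun N : ℕ => (1 / (Real.log N : ℂ)) *
    ∑ n ∈ Icc 1 N, (f n : ℂ) / n * ρ ((α^[n]) x)) atTop (𝓝 0)

/-- this for the Möbius and for the Liouville function -/
def MobiusDisjoint (α : A ≃⋆ₐ[ℂ] A) (M : Set A) : Prop := LogDisjoint α mu M ∧ LogDisjoint α lam M

end element

/-- (A) The closed span of the elements with null spectrum is disjoint from `μ` and `λ`. For each
proper subgroup `G` of the circle, closed or not, the elements with spectrum in a closed subset of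
`G` form a *-subalgebra and have null spectrum; if a set of such elements generates the algebra, then
all elements are disjoint from `μ` and `λ`. -/
def PartA : Prop :=
  ∀ (A : Type u) [NonUnitalCStarAlgebra A] (α : A ≃⋆ₐ[ℂ] A),
    MobiusDisjoint α (ClosedSpan (Null α)) ∧
    ∀ G : AddSubgroup UnitAddCircle, G ≠ ⊤ →
      InGroup α G ⊆ Null α ∧ (∃ Z : NonUnitalStarSubalgebra ℂ A, (Z : Set A) = InGroup α G) ∧
      ∀ D ⊆ InGroup α G, Generates D → MobiusDisjoint α Set.univ

/-- Windows: for elements of the unit balls of the spectral subspaces of `K`, which may change with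
the window; uniformly in the algebra and the automorphism. -/
def WindowBound (f : ℕ → ℤ) (K : Set UnitAddCircle) : Prop :=
  ∀ ε : ℝ, 0 < ε → ∃ L₀ : ℕ, ∀ L : ℕ, L₀ ≤ L → ∃ N₀ : ℕ, ∀ N : ℕ, N₀ ≤ N →
    ∀ (A : Type u) [NonUnitalCStarAlgebra A] (α : A ≃⋆ₐ[ℂ] A) (x : ℕ → A),
      (∀ n, ArvesonIn α K (x n) ∧ ‖x n‖ ≤ 1) → ∀ θ : ℝ,
        ∑ n ∈ Icc 1 N, (1 / (n : ℝ)) *
          ‖∑ h ∈ range L, ((f (n + h) : ℂ) * e (h * θ)) • (α^[h]) (x n)‖ ^ 2 ≤
          (meas K + ε) * L ^ 2 * Real.log N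

/-- Logarithmic means: uniformly in the algebra, the automorphism and the element. -/
def MeanBound (f : ℕ → ℤ) (K : Set UnitAddCircle) : Prop :=
  ∀ ε : ℝ, 0 < ε → ∃ N₀ : ℕ, ∀ N : ℕ, N₀ ≤ N →
    ∀ (A : Type u) [NonUnitalCStarAlgebra A] (α : A ≃⋆ₐ[ℂ] A) (x : A), ArvesonIn α K x → ∀ θ : ℝ,
      ‖∑ n ∈ Icc 1 N, (1 / (n : ℂ)) • twistedSum α f θ {n} x‖ ≤
        (Real.sqrt (meas K) + ε) * Real.log N * ‖x‖

/-- (B) bounds in terms of the measure of a closed set `K` which contains the spectrum -/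
def PartB : Prop :=
  ∀ K : Set UnitAddCircle, IsClosed K → (WindowBound.{u} mu K ∧ MeanBound.{u} mu K) ∧
    WindowBound.{u} lam K ∧ MeanBound.{u} lam K

section unitary

variable {B : Type v} [CStarAlgebra B]

/-- the spectrum of the unitary `w`, as a subset of `ℝ/ℤ` -/
def uspectrum (w : unitary B) : Set UnitAddCircle := {θ | (fourier 1 θ : ℂ) ∈ spectrum ℂ (w : B)}

/-- the differences of the points of the spectrum of `w` form a set of measure zero -/
def NullDifferences (w : unitary B) : Prop :=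
  volume {η | ∃ a ∈ uspectrum w, ∃ b ∈ uspectrum w, η = a - b} = 0

/-- the spectrum of `w` is contained in a coset of a proper subgroup of the circle -/
def InProperCoset (w : unitary B) : Prop :=
  ∃ G : AddSubgroup UnitAddCircle, G ≠ ⊤ ∧ ∃ c : UnitAddCircle, ∀ θ ∈ uspectrum w, θ - c ∈ G

/-- the logarithmic means of `f(n) e(nθ) wⁿ x w⁻ⁿ` tend to zero in norm, uniformly for `x` in the unit
ball of the algebra and in `θ` -/
def InnerBound (w : unitary B) (f : ℕ → ℤ) : Prop :=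
  ∀ ε : ℝ, 0 < ε → ∃ N₀ : ℕ, ∀ N : ℕ, N₀ ≤ N → ∀ (x : B) (θ : ℝ),
    ‖∑ n ∈ Icc 1 N, ((f n : ℂ) * e (n * θ) / n) • ((w : B) ^ n * x * star (w : B) ^ n)‖ ≤
      ε * Real.log N * ‖x‖

/-- each automorphism `α` of a C*-algebra which in some embedding is implemented by `w` has only
elements with null spectrum, and all elements are disjoint from `μ` and `λ` -/
def Implemented (w : unitary B) : Prop :=
  ∀ (A : Type u) [NonUnitalCStarAlgebra A] (α : A ≃⋆ₐ[ℂ] A) (ι : A →⋆ₙₐ[ℂ] B),
    Function.Injective ι → (∀ x, ι (α x) = (w : B) * ι x * star (w : B)) →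
    Null α = Set.univ ∧ MobiusDisjoint α Set.univ

end unitary

/-- (C) unitaries whose spectrum lies in a coset of a proper subgroup, or has a null set of
differences -/
def PartC : Prop :=
  ∀ (B : Type v) [CStarAlgebra B] (w : unitary B), (InProperCoset w → NullDifferences w) ∧
    (NullDifferences w → InnerBound w mu ∧ InnerBound w lam ∧ Implemented.{u, v} w)

open Pool.Agent.X84.Ns
open Pool.Agent.X84.Sp
open Pool.Agent.Y326 (TwoPoint ex tm wn LW lw_scales LD1 fs iter_le)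

section proofs

variable {A : Type u} [NonUnitalCStarAlgebra A] {α : A ≃⋆ₐ[ℂ] A} {f : ℕ → ℤ}

theorem ex_eq (t : ℝ) : ex t = e t := rfl

theorem logDisjoint_of {M : Set A} (hf : ∀ n, |f n| ≤ 1)
    (h : ∀ x ∈ M, LW f (fun n => ((aL α)^[n]) x)) : LogDisjoint α f M := by
  refine ⟨fun x hx ε hε => ⟨?_, ?_⟩, ?_, ?_⟩
  · obtain ⟨M₀, hM₀⟩ := h x hx ε hε
    refine ⟨M₀, fun M hM => ?_⟩
    obtain ⟨N₀, hN₀⟩ := hM₀ M hM
    refine ⟨N₀, fun N hN θ => ?_⟩
    refine le_trans (le_of_eq ?_) (hN₀ N hN θ)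
    unfold Pool.Agent.TH833.BL.S
    refine sum_congr rfl fun n _ => ?_
    congr 2
    unfold twistedSum
    rw [sum_Ico_eq_sum_range, Nat.add_sub_cancel_left]
    rfl
  · obtain ⟨N₀, hN₀⟩ := (h x hx).logmean hf (fun n => iter_le (aL_norm α) n x) ε hε
    refine ⟨N₀, fun N hN θ => ?_⟩
    refine le_trans (le_of_eq ?_) (hN₀ N hN θ)
    congr 1
    refine sum_congr rfl fun n _ => ?_
    congr 1
    unfold twistedSum
    rw [sum_singleton]
    rfl
  · intro D hD hDs
    obtain ⟨s, hs1, hs2⟩ := lw_scales hf (aL_norm α) D {0} (fun x hx => h x (hD hx)) hDs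
      (Set.countable_singleton 0)
    classical
    refine ⟨s, ?_, fun x hx => ?_⟩
    · have := Pool.Agent.Y326.ld_one s hs1
      unfold LogDensityOne
      convert this
    · have h1 := hs2 x hx 0 rfl
      rw [tendsto_zero_iff_norm_tendsto_zero]
      refine h1.congr fun N => ?_
      congr 2
      unfold fs
      refine sum_congr rfl fun n _ => ?_
      unfold tm ex
      simp only [mul_zero, Complex.ofReal_zero, Complex.exp_zero, mul_one]
      rfl
  · intro ρ x hx
    rw [Metric.tendsto_atTop]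
    intro ε hε
    obtain ⟨N₀, hN₀⟩ := (h x hx).logmean hf (fun n => iter_le (aL_norm α) n x)
      (ε / (2 * (‖ρ‖ + 1))) (by positivity)
    refine ⟨max N₀ 3, fun N hN => ?_⟩
    have h1 := hN₀ N ((le_max_left _ _).trans hN) 0
    have hl := Pool.Agent.TH833.BL.one_le_log ((le_max_right _ _).trans hN)
    rw [dist_zero_right]
    have e : ∑ n ∈ Icc 1 N, (f n : ℂ) / n * ρ ((α^[n]) x) =
        ρ (∑ n ∈ Icc 1 N, (1 / (n : ℂ)) • tm f (fun n => ((aL α)^[n]) x) 0 n) := by
      rw [map_sum]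
      refine sum_congr rfl fun n _ => ?_
      unfold tm ex
      rw [map_smul, map_smul, smul_eq_mul, smul_eq_mul]
      simp only [mul_zero, Complex.ofReal_zero, Complex.exp_zero, mul_one]
      have : ρ (((aL α)^[n]) x) = ρ ((α^[n]) x) := rfl
      rw [this]
      ring
    rw [e, norm_mul, norm_div, norm_one, Complex.norm_real, Real.norm_eq_abs,
      abs_of_nonneg (by linarith)]
    have h0 : (0 : ℝ) < Real.log N := by linarith
    calc 1 / Real.log (N : ℝ) * ‖ρ (∑ n ∈ Icc 1 N, (1 / (n : ℂ)) •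
          tm f (fun n => ((aL α)^[n]) x) 0 n)‖ ≤
        1 / Real.log (N : ℝ) * (‖ρ‖ * (ε / (2 * (‖ρ‖ + 1)) * Real.log N)) := by
          gcongr
          exact (ρ.le_opNorm _).trans (mul_le_mul_of_nonneg_left h1 (norm_nonneg _))
      _ = ε / 2 * (‖ρ‖ / (‖ρ‖ + 1)) := by field_simp
      _ ≤ ε / 2 * 1 := by
          gcongr
          rw [div_le_one (by positivity)]
          linarith
      _ < ε := by linarith

theorem mu_le (n : ℕ) : |mu n| ≤ 1 := ArithmeticFunction.abs_moebius_le_one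

theorem lam_le (n : ℕ) : |lam n| ≤ 1 := by
  unfold lam
  rw [abs_pow, abs_neg, abs_one, one_pow]

theorem mobiusDisjoint_of {M : Set A} (h : M ⊆ ClosedSpan (Null α)) : MobiusDisjoint α M :=
  ⟨logDisjoint_of mu_le fun _ hx => lw_NE_span mu_le Pool.Agent.Y326.TwoPoint.mu (h hx),
    logDisjoint_of lam_le fun _ hx => lw_NE_span lam_le Pool.Agent.Y326.TwoPoint.lam (h hx)⟩

theorem partA : PartA.{u} := by
  intro A _ α
  refine ⟨mobiusDisjoint_of le_rfl, fun G hG => ⟨GE_sub α hG, ⟨GA α G, rfl⟩, ?_⟩⟩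
  intro D hD hd
  exact mobiusDisjoint_of fun x _ => span_of_gen hG hD hd x

theorem orb_nat (x : A) (n : ℕ) : Pool.Agent.TH327.Thin.orb α x n = (α^[n]) x := by
  rw [← aL_iter]
  rfl

theorem windowBound (hf : ∀ n, |f n| ≤ 1) (hT : TwoPoint f) {K : Set UnitAddCircle}
    (hK : IsClosed K) : WindowBound.{u} f K := by
  intro ε hε
  obtain ⟨L₀, -, h1⟩ := wnd_banach.{u} hf hT hK ε hε
  refine ⟨L₀, fun L hL => ?_⟩
  obtain ⟨N₀, -, h2⟩ := h1 L hL
  refine ⟨N₀, fun N hN A _ α x hx θ => ?_⟩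
  have h3 := h2 N hN A (fun n k => Pool.Agent.TH327.Thin.orb α (x n) k) (fun n k => by
    rw [Pool.Agent.TH327.Thin.norm_orb]; exact (hx n).2) (fun n => (hx n).1) θ
  refine le_trans (le_of_eq ?_) h3
  unfold Pool.Agent.TH833.BL.S
  refine sum_congr rfl fun n _ => ?_
  congr 3
  refine sum_congr rfl fun k _ => ?_
  rw [orb_nat]
  rfl

theorem meanBound (hf : ∀ n, |f n| ≤ 1) (hT : TwoPoint f) {K : Set UnitAddCircle}
    (hK : IsClosed K) : MeanBound.{u} f K := by
  intro ε hε
  obtain ⟨N₀, h1⟩ := log_banach.{u} hf hT hK ε hε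
  refine ⟨N₀, fun N hN A _ α x hx θ => ?_⟩
  rcases eq_or_ne x 0 with rfl | hx0
  · have : ∀ m : ℕ, (α^[m]) (0 : A) = 0 := fun m => by
      rw [← orb_nat, Pool.Agent.TH327.Thin.orb_zero]
    simp [twistedSum, this]
  have hn : 0 < ‖x‖ := norm_pos_iff.2 hx0
  have h3 := h1 N hN A (fun n => ((‖x‖⁻¹ : ℝ) : ℂ) • Pool.Agent.TH327.Thin.orb α x n) (fun n => by
    rw [norm_smul, Pool.Agent.TH327.Thin.norm_orb, Complex.norm_real, norm_inv, norm_norm,
      inv_mul_cancel₀ hn.ne']) (Pool.Agent.TH327.Dim.specIn_smul hx _) θ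
  have e1 : ∑ n ∈ Icc 1 N, (1 / (n : ℂ)) • twistedSum α f θ {n} x =
      (‖x‖ : ℂ) • ∑ n ∈ Icc 1 N, ((f n : ℂ) * ex (n * θ) / n) •
        (((‖x‖⁻¹ : ℝ) : ℂ) • Pool.Agent.TH327.Thin.orb α x n) := by
    rw [smul_sum]
    refine sum_congr rfl fun m _ => ?_
    unfold twistedSum
    rw [sum_singleton, smul_comm (‖x‖ : ℂ), smul_smul (‖x‖ : ℂ)]
    have : (‖x‖ : ℂ) * ((‖x‖⁻¹ : ℝ) : ℂ) = 1 := by
      rw [← Complex.ofReal_mul, mul_inv_cancel₀ hn.ne', Complex.ofReal_one]
    rw [this, one_smul, smul_smul, orb_nat, ex_eq]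
    congr 1
    ring
  rw [e1, norm_smul, Complex.norm_real, norm_norm, mul_comm]
  exact mul_le_mul_of_nonneg_right h3 hn.le

theorem partB : PartB.{u} := fun _ hK =>
  ⟨⟨windowBound mu_le Pool.Agent.Y326.TwoPoint.mu hK, meanBound mu_le Pool.Agent.Y326.TwoPoint.mu hK⟩,
    windowBound lam_le Pool.Agent.Y326.TwoPoint.lam hK,
    meanBound lam_le Pool.Agent.Y326.TwoPoint.lam hK⟩

theorem dspec_eq {B : Type v} [CStarAlgebra B] (w : unitary B) :
    {η | ∃ a ∈ uspectrum w, ∃ b ∈ uspectrum w, η = a - b} = dspec w := by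
  ext η
  constructor
  · rintro ⟨a, ha, b, hb, rfl⟩
    refine ⟨a, ha, -b, ?_, (sub_eq_add_neg a b).symm⟩
    show - -b ∈ uspectrum w
    rw [neg_neg]
    exact hb
  · rintro ⟨a, ha, b, hb, rfl⟩
    exact ⟨a, ha, -b, hb, (sub_neg_eq_add a b).symm⟩

theorem partC : PartC.{u, v} := by
  intro B _ w
  constructor
  · rintro ⟨G, hG, c, hc⟩
    unfold NullDifferences
    rw [dspec_eq]
    exact null_of_proper hG (dspec_closed w) (dspec_sub hc)
  · intro hw
    unfold NullDifferences at hw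
    rw [dspec_eq] at hw
    refine ⟨unit_bound hw mu_le Pool.Agent.Y326.TwoPoint.mu,
      unit_bound hw lam_le Pool.Agent.Y326.TwoPoint.lam, ?_⟩
    intro A _ α ι hι hα
    have hall : Null α = Set.univ := Set.eq_univ_of_forall fun x =>
      ⟨dspec w, dspec_closed w, hw, implemented ι hι hα x⟩
    refine ⟨hall, mobiusDisjoint_of ?_⟩
    rw [hall]
    exact fun x _ => subset_closure (Submodule.subset_span (Set.mem_univ x))

end proofs

/-- **Logarithmic Möbius disjointness in norm for Arveson spectra of measure zero.** (A) concerns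
single automorphisms; (B) is the bound in terms of the measure of the spectrum, uniform in the
algebra, the automorphism and the elements; (C) concerns automorphisms implemented by unitaries. -/
theorem result : PartA.{u} ∧ PartB.{u} ∧ PartC.{u, v} := ⟨partA, partB, partC⟩

end Pool.Agent.Results.MP_7a8f48_an.NullArvesonSpectrum
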