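import Pool.Agent.X188.SCY
import Pool.Agent.X188.SCH

/-! Möbius disjointness for automorphisms of scattered C*-algebras, and lifting of Möbius
disjointness through scattered ideals. -/

set_option autoImplicit false

open Filter Topology Finset

namespace Pool.Agent.Results.MP_7a8f48_an.ScatteredAlgebras

universe u

/-- `S` is a closed two-sided ideal of `A` which is scattered: each nonzero quotient `S / J` has a
minimal projection, or, what is the same, a nonzero element `p` with `p a p ∈ ℂ p` for all `a`. -/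
structure ScatteredIdeal {A : Type u} [CStarAlgebra A] (S : Ideal A) : Prop where
  twoSided : S.IsTwoSided
  closed : IsClosed (S : Set A)
  minimal : ∀ J : Ideal A, J.IsTwoSided → IsClosed (J : Set A) → J ≤ S → J ≠ S →
    ∃ p ∈ S, p ∉ J ∧ ∀ a : A, ∃ c : ℂ, p * a * p - c • p ∈ J

/-- `e(x) = exp(2πix)` -/
noncomputable def e (x : ℝ) : ℂ := Complex.exp (2 * Real.pi * Complex.I * x)

/-- `f` is bounded by one, and its exponential sums over windows of length `L` are `o(L)` in the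
mean over the windows, uniformly in the frequency, as first `N → ∞` and then `L → ∞`. -/
structure ShortUniform (f : ℕ → ℂ) : Prop where
  bounded : ∀ n, ‖f n‖ ≤ 1
  small : ∀ ε : ℝ, 0 < ε → ∃ L₀ : ℕ, ∀ L ≥ L₀, ∃ N₀ : ℕ, ∀ N ≥ N₀, ∀ β : ℝ,
    ∑ n ∈ range N, ‖∑ i ∈ range L, f (n + i) * e (β * i)‖ ≤ ε * L * N

/-- the sum of `f i • αⁱ(x)` over the window `n ≤ i < n + L` -/
noncomputable def window {A : Type u} [CStarAlgebra A] (f : ℕ → ℂ) (α : A ≃⋆ₐ[ℂ] A) (x : A)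
    (n L : ℕ) : A :=
  ∑ i ∈ Ico n (n + L), f i • α^[i] x

/-- The windows of suitable lengths `L` satisfy
`limsup_N (1 / (N L)) ∑_{n < N} d (window n L) ≤ c + ε`, for each `ε > 0`. -/
def WindowMeanLE {A : Type u} [CStarAlgebra A] (d : A → ℝ) (f : ℕ → ℂ) (α : A ≃⋆ₐ[ℂ] A) (x : A)
    (c : ℝ) : Prop :=
  ∀ ε : ℝ, 0 < ε → ∃ L : ℕ, 0 < L ∧ ∃ N₀ : ℕ, ∀ N ≥ N₀,
    ∑ n ∈ range N, d (window f α x n L) ≤ (c + ε) * L * N

/-- The sums of `f n • αⁿ(x)` are at most `c` in norm on average, over the windows and over the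
full intervals. -/
def NormMeanLE {A : Type u} [CStarAlgebra A] (f : ℕ → ℂ) (α : A ≃⋆ₐ[ℂ] A) (x : A) (c : ℝ) :
    Prop :=
  WindowMeanLE (fun y => ‖y‖) f α x c ∧
    ∀ ε : ℝ, 0 < ε → ∃ N₀ : ℕ, ∀ N ≥ N₀, ‖∑ n ∈ Icc 1 N, f n • α^[n] x‖ ≤ (c + ε) * N

/-- Disjointness of `f` from the orbit of `x`: in norm, over the windows and over the full
intervals, and for each bounded functional, in particular for each state. -/
def Disjoint {A : Type u} [CStarAlgebra A] (f : ℕ → ℂ) (α : A ≃⋆ₐ[ℂ] A) (x : A) : Prop :=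
  NormMeanLE f α x 0 ∧ ∀ ρ : A →L[ℂ] ℂ, Tendsto (fun N : ℕ => (1 / (N : ℂ)) *
      ∑ n ∈ Icc 1 N, f n * ρ (α^[n] x)) atTop (𝓝 0)

/-- `x` is in the closed linear span of the elements which are eigenvectors of `α` modulo `S`. -/
def AlmostPeriodicMod {A : Type u} [CStarAlgebra A] (S : Ideal A) (α : A ≃⋆ₐ[ℂ] A) (x : A) :
    Prop :=
  x ∈ closure (Submodule.span ℂ {y : A | ∃ β : ℝ, α y - e β • y ∈ S} : Set A)

theorem iter_pow {A : Type u} [CStarAlgebra A] (α : A ≃⋆ₐ[ℂ] A) (n : ℕ) (x : A) :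
    α^[n] x = (α ^ n) x := by
  induction n with
  | zero => rfl
  | succ n ih =>
    rw [Function.iterate_succ_apply', ih, pow_succ']
    rfl

theorem window_eq {A : Type u} [CStarAlgebra A] (f : ℕ → ℂ) (α : A ≃⋆ₐ[ℂ] A) (x : A)
    (n L : ℕ) : window f α x n L = (α ^ n) (Pool.Agent.X188.SC.win f α x n L) := by
  rw [← Pool.Agent.X188.SC.win_shift]
  unfold window
  exact sum_congr rfl fun i _ => by rw [iter_pow]

theorem mean_iff {A : Type u} [CStarAlgebra A] (d : A → ℝ) (f : ℕ → ℂ) (α : A ≃⋆ₐ[ℂ] A)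
    (hd : ∀ (n : ℕ) y, d ((α ^ n) y) = d y) (x : A) (c : ℝ) :
    WindowMeanLE d f α x c ↔ Pool.Agent.X188.SC.ML d f α x c := by
  unfold WindowMeanLE Pool.Agent.X188.SC.ML
  simp only [window_eq, hd]

theorem short_iff (f : ℕ → ℂ) : ShortUniform f ↔ Pool.Agent.X188.SC.ShortUniform f :=
  ⟨fun h => ⟨h.1, h.2⟩, fun h => ⟨h.1, h.2⟩⟩

theorem norm_mean {A : Type u} [CStarAlgebra A] (f : ℕ → ℂ) (hf : ∀ n, ‖f n‖ ≤ 1)
    (α : A ≃⋆ₐ[ℂ] A) (x : A) (c : ℝ) (hc : 0 ≤ c)
    (h : Pool.Agent.X188.SC.ML (fun y => ‖y‖) f α x c) : NormMeanLE f α x c := by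
  refine ⟨(mean_iff _ f α (fun n y => Pool.Agent.X188.SC.norm_al _ y) x c).2 h, fun ε hε => ?_⟩
  obtain ⟨N₀, hN⟩ := Pool.Agent.X188.SC.avg_of_ML hf α x c h (ε / 2) (by positivity)
  obtain ⟨N₁, hN₁⟩ := exists_nat_ge ((c + ε / 2 + ‖x‖) / (ε / 2))
  refine ⟨max N₀ N₁, fun N hNN => ?_⟩
  have h1 := hN (N + 1) (le_trans (le_trans (le_max_left _ _) hNN) (Nat.le_succ N))
  rw [sum_range_eq_add_Ico _ (Nat.succ_pos N)] at h1
  have h2 : ∑ n ∈ Icc 1 N, f n • α^[n] x = ∑ n ∈ Ico 1 (N + 1), f n • (α ^ n) x :=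
    sum_congr rfl fun n _ => by rw [iter_pow]
  rw [h2]
  have h3 : ∑ n ∈ Ico 1 (N + 1), f n • (α ^ n) x =
      (f 0 • (α ^ 0) x + ∑ n ∈ Ico 1 (N + 1), f n • (α ^ n) x) - f 0 • (α ^ 0) x := by abel
  rw [h3]
  refine (norm_sub_le _ _).trans ?_
  have h4 : ‖f 0 • (α ^ 0) x‖ ≤ ‖x‖ := by
    rw [norm_smul, Pool.Agent.X188.SC.norm_al]
    exact mul_le_of_le_one_left (norm_nonneg _) (hf 0)
  have h5 : c + ε / 2 + ‖x‖ ≤ ε / 2 * N := by
    have h6 : (c + ε / 2 + ‖x‖) / (ε / 2) ≤ N :=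
      hN₁.trans (by exact_mod_cast le_trans (le_max_right _ _) hNN)
    rw [div_le_iff₀ (by positivity)] at h6
    linarith
  push_cast at h1
  linarith

theorem disjoint_of {A : Type u} [CStarAlgebra A] (f : ℕ → ℂ) (hf : ∀ n, ‖f n‖ ≤ 1)
    (α : A ≃⋆ₐ[ℂ] A) (x : A) (h : Pool.Agent.X188.SC.ML (fun y => ‖y‖) f α x 0) :
    Disjoint f α x := by
  have h0 := norm_mean f hf α x 0 le_rfl h
  refine ⟨h0, fun ρ => ?_⟩
  rw [Metric.tendsto_atTop]
  intro ε hε
  obtain ⟨N₀, h0⟩ := h0.2 (ε / (2 * (‖ρ‖ + 1))) (by positivity)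
  refine ⟨max N₀ 1, fun N hN => ?_⟩
  have hN0 : N₀ ≤ N := le_trans (le_max_left _ _) hN
  have hN1 : 1 ≤ N := le_trans (le_max_right _ _) hN
  have hNr : (0 : ℝ) < N := by exact_mod_cast hN1
  have h1 := h0 N hN0
  rw [zero_add] at h1
  have e : ∑ n ∈ Icc 1 N, f n * ρ (α^[n] x) = ρ (∑ n ∈ Icc 1 N, f n • α^[n] x) := by
    rw [map_sum]
    exact Finset.sum_congr rfl fun n _ => by rw [map_smul, smul_eq_mul]
  rw [dist_zero_right, e, norm_mul, norm_div, norm_one, Complex.norm_natCast]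
  calc 1 / (N : ℝ) * ‖ρ (∑ n ∈ Icc 1 N, f n • α^[n] x)‖
      ≤ 1 / (N : ℝ) * (‖ρ‖ * (ε / (2 * (‖ρ‖ + 1)) * N)) := by
        gcongr
        exact (ρ.le_opNorm _).trans (mul_le_mul_of_nonneg_left h1 (norm_nonneg _))
    _ = ε / 2 * (‖ρ‖ / (‖ρ‖ + 1)) := by field_simp
    _ ≤ ε / 2 * 1 := by
        gcongr
        rw [div_le_one (by positivity)]
        linarith
    _ < ε := by linarith

/-- **Möbius disjointness through scattered ideals.** Let `S` be a scattered closed ideal of the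
unital C*-algebra `A`, invariant under the automorphism `α`. (1) `μ(n) e(nθ)` is short uniform
(Matomäki–Radziwiłł–Tao). For each short uniform `f`: (2) if the windows of `f n • αⁿ(x)` are at
most `c` on average modulo `S`, then they, and the full averages, are at most `c` in norm; (3) `f`
is disjoint in norm from the orbits of the elements `x` which are almost periodic modulo `S`;
(4) in particular, if `A` is scattered, from all the orbits of `α`. -/
theorem result {A : Type u} [CStarAlgebra A] (S : Ideal A) (hS : ScatteredIdeal S)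
    (α : A ≃⋆ₐ[ℂ] A) (hα : ∀ x, α x ∈ S ↔ x ∈ S) :
    (∀ θ : ℝ, ShortUniform fun n => ((ArithmeticFunction.moebius n : ℤ) : ℂ) * e (n * θ)) ∧
    ∀ f : ℕ → ℂ, ShortUniform f →
      (∀ (x : A) (c : ℝ), 0 ≤ c → WindowMeanLE (fun y => Metric.infDist y S) f α x c →
        NormMeanLE f α x c) ∧
      (∀ x : A, AlmostPeriodicMod S α x → Disjoint f α x) ∧
      (S = ⊤ → ∀ x : A, Disjoint f α x) := by
  refine ⟨fun θ => (short_iff _).2 (Pool.Agent.X188.SC.mob_short θ), fun f hf => ?_⟩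
  have hf' := (short_iff f).1 hf
  have hSa := Pool.Agent.X188.SC.inv_pow α S hα
  have hL : Pool.Agent.X188.SC.Lift f α S :=
    Pool.Agent.X188.SC.lift_scat hf' α S hS.twoSided hS.closed hSa hS.minimal
  have h2 : ∀ x : A, AlmostPeriodicMod S α x → Disjoint f α x := by
    intro x hx
    have := hS.twoSided
    have := hS.closed
    obtain ⟨B, _, q, hqs, hqk, hqn⟩ := Pool.Agent.X188.SC.exists_quotient S
    refine disjoint_of f hf.1 α x (hL x 0 le_rfl ?_)
    have h3 := Pool.Agent.X188.SC.ap_neg hf' α q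
      (fun a ha => (hqk _).2 ((hα a).2 ((hqk a).1 ha))) x (by
        refine closure_mono ?_ hx
        refine Submodule.span_mono ?_
        rintro y ⟨β, hβ⟩
        refine ⟨β, ?_⟩
        have h4 := (hqk _).2 hβ
        rw [map_sub, map_smul] at h4
        exact sub_eq_zero.1 h4)
    exact Pool.Agent.X188.SC.ML_of_neg (h3.mono fun L n => le_of_eq (hqn _).symm)
  refine ⟨fun x c hc hx => ?_, h2, fun hST x => h2 x ?_⟩
  · refine norm_mean f hf.1 α x c hc (hL x c hc ?_)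
    refine (mean_iff _ f α (fun n y => ?_) x c).1 hx
    have := Pool.Agent.X188.SC.infDist_al α S hSa n y
    rwa [Pool.Agent.X188.SC.al_nat] at this
  · refine subset_closure (Submodule.subset_span ⟨0, ?_⟩)
    rw [hST]
    exact Submodule.mem_top

end Pool.Agent.Results.MP_7a8f48_an.ScatteredAlgebras
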