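import Pool.Agent.X23.CA5

/-!
# Möbius disjointness in norm of elements of C*-algebras with singular spectral measures

Li's question: `(1/N) ∑_{n ≤ N} μ(n) ρ(αⁿ b) → 0` for the automorphisms `α` of zero entropy of an exact
C*-algebra. We prove it in norm, along all `N` outside one universal set `E` of logarithmic density zero, and for
logarithmic means along all `N`, for every unital C*-algebra, every unital *-endomorphism `α` and all elements `b`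
of the closed linear span of the elements whose spectral measures in all `α`-invariant states are singular.
-/

set_option autoImplicit false

open Finset Filter MeasureTheory AddCircle
open scoped ComplexOrder

namespace Pool.Agent.Results.MP_7a8f48_an.SingularStates

universe u

open Classical in
/-- `E` has logarithmic density zero -/
def LogDensityZero (E : Set ℕ) : Prop := Tendsto
  (fun X : ℕ => (∑ n ∈ Icc 1 X, if n ∈ E then (1 : ℝ) / n else 0) / Real.log X) atTop (nhds 0)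

/-- `e(x) = exp(2 π i x)` -/
noncomputable def e (x : ℝ) : ℂ := Complex.exp (2 * Real.pi * x * Complex.I)

/-- the sequence `b` is almost periodic at each scale: for every `ε > 0` there is `J` such that at every large
scale `N` there are at most `J` frequencies `α_j` and coefficients `ρ_j(n)`, bounded by `J` and of total variation
at most `J` on `[0, N]`, with `∑_{n < N} |b(n) - ∑_j ρ_j(n) e(α_j n)| ≤ ε N` -/
def AlmostPeriodic (b : ℕ → ℂ) : Prop :=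
  ∀ ε : ℝ, 0 < ε → ∃ J N₀ : ℕ, ∀ N : ℕ, N₀ ≤ N → ∃ (ρ : Fin J → ℕ → ℂ) (α : Fin J → ℝ),
    (∀ j n, ‖ρ j n‖ ≤ J) ∧ (∀ j, ∑ n ∈ range N, ‖ρ j (n + 1) - ρ j n‖ ≤ J) ∧
      ∑ n ∈ range N, ‖b n - ∑ j, ρ j n * e (α j * n)‖ ≤ ε * N

section
variable {A : Type u} [CStarAlgebra A]

/-- `φ` is a state: linear, positive, `φ 1 = 1` -/
def IsState (φ : A → ℂ) : Prop :=
  (∀ a b, φ (a + b) = φ a + φ b) ∧ (∀ (c : ℂ) a, φ (c • a) = c * φ a) ∧ (∀ a, 0 ≤ φ (star a * a)) ∧ φ 1 = 1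

/-- For every `α`-invariant state `φ` the spectral measure of `b` is singular with respect to the Lebesgue measure
on the circle `ℝ/ℤ`: for some finite singular measure `σ` on the circle, `φ(b* αⁿ(b)) = ∫ e(n t) dσ(t)` for all
`n ≥ 0`. -/
def SingularAt (α : A →⋆ₐ[ℂ] A) (b : A) : Prop :=
  ∀ φ : A → ℂ, IsState φ → (∀ a, φ (α a) = φ a) →
    ∃ σ : Measure UnitAddCircle, IsFiniteMeasure σ ∧ σ ⟂ₘ (haarAddCircle : Measure UnitAddCircle) ∧
      ∀ n : ℕ, φ (star b * (α^[n]) b) = ∫ t, fourier (n : ℤ) t ∂σ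

/-- `b` is in the closed linear span of the elements with singular spectral measures -/
def InSingularSpan (α : A →⋆ₐ[ℂ] A) (b : A) : Prop :=
  b ∈ (Submodule.span ℂ {a : A | SingularAt α a}).topologicalClosure

/-- The windows `∑_{m < H} v(n+m) α^m(b)` have norm `≤ ε H` on average over `n < N`, for `H ≥ H₀(ε)` and
`N ≥ N₀(ε, H)`, `N ∉ E`, uniformly in the sequences `v = v_θ`. -/
def Windows (E : Set ℕ) {Θ : Type} (v : Θ → ℕ → ℂ) (α : A →⋆ₐ[ℂ] A) (b : A) : Prop :=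
  ∀ ε : ℝ, 0 < ε → ∃ H₀ : ℕ, ∀ H : ℕ, H₀ ≤ H → ∃ N₀ : ℕ, ∀ N : ℕ, N₀ ≤ N → N ∉ E → ∀ θ : Θ,
    ∑ n ∈ range N, ‖∑ m ∈ range H, v θ (n + m) • (α^[m]) b‖ ≤ ε * H * N

/-- `‖(1/N) ∑_{n < N} v(n) αⁿ(b)‖ → 0` as `N → ∞`, `N ∉ E`, uniformly in `v = v_θ` -/
def Means (E : Set ℕ) {Θ : Type} (v : Θ → ℕ → ℂ) (α : A →⋆ₐ[ℂ] A) (b : A) : Prop :=
  ∀ ε : ℝ, 0 < ε → ∃ N₀ : ℕ, ∀ N : ℕ, N₀ ≤ N → N ∉ E → ∀ θ : Θ,
    ‖∑ n ∈ range N, v θ n • (α^[n]) b‖ ≤ ε * N

/-- `‖(1/log N) ∑_{n ≤ N} (1/n) v(n) αⁿ(b)‖ → 0` as `N → ∞`, uniformly in `v = v_θ` -/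
def LogMeans {Θ : Type} (v : Θ → ℕ → ℂ) (α : A →⋆ₐ[ℂ] A) (b : A) : Prop :=
  ∀ ε : ℝ, 0 < ε → ∃ N₀ : ℕ, ∀ N : ℕ, N₀ ≤ N → ∀ θ : Θ,
    ‖∑ n ∈ Icc 1 N, (1 / (n : ℂ)) • (v θ n • (α^[n]) b)‖ ≤ ε * Real.log N

end

lemma e_eq (x : ℝ) : e x = Pool.Agent.Helper602.MK.ee x := rfl

lemma norm_e (x : ℝ) : ‖e x‖ = 1 := Pool.Agent.Helper602.MK.N_J1c.c_norm_ee x

lemma e_add (x y : ℝ) : e (x + y) = e x * e y := Pool.Agent.Helper602.MK.N_J1c.c_ee_add x y

lemma e_conj (x : ℝ) : (starRingEnd ℂ) (e x) = e (-x) := by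
  unfold e
  rw [← Complex.exp_conj]
  congr 1
  simp only [map_mul, Complex.conj_ofReal, Complex.conj_I, map_ofNat]
  push_cast
  ring

section
open Pool.Agent.Y842.CX (Wt L cr Fam natw flt flt_iff fam_nat L_nat AP kills_AP)

variable {A : Type u} [CStarAlgebra A]

/-- the statement for one of the two functions, given the set `E` -/
lemma core (u : ℕ → ℤ) (hb : ∀ n, |u n| ≤ 1) (E : Set ℕ) (hE0 : LogDensityZero E)
    (hE : ∀ h : ℕ, 1 ≤ h → ∀ ε : ℝ, 0 < ε →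
      ∃ N₀ : ℕ, ∀ N : ℕ, N₀ ≤ N → N ∉ E → ∀ α : ℝ, ‖Pool.Agent.Y842.PH.Cr u h N α‖ ≤ ε * N)
    (α : A →⋆ₐ[ℂ] A) (b : A) (hS : InSingularSpan α b) :
    (Windows E (fun (θ : ℝ × ℝ) n => (u n : ℂ) * e (θ.1 * (n : ℝ) ^ 2 + θ.2 * n)) α b ∧
      Means E (fun (θ : ℝ × ℝ) n => (u n : ℂ) * e (θ.1 * (n : ℝ) ^ 2 + θ.2 * n)) α b ∧
      LogMeans (fun (θ : ℝ × ℝ) n => (u n : ℂ) * e (θ.1 * (n : ℝ) ^ 2 + θ.2 * n)) α b) ∧
    (∀ G : ℕ → ℂ, (∀ n, ‖G n‖ ≤ 1) →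
      (∀ k : ℕ, 1 ≤ k → AlmostPeriodic (fun n => G (n + k) * (starRingEnd ℂ) (G n))) →
      Windows E (fun (_ : Unit) n => (u n : ℂ) * G n) α b ∧ Means E (fun (_ : Unit) n => (u n : ℂ) * G n) α b ∧
        LogMeans (fun (_ : Unit) n => (u n : ℂ) * G n) α b) ∧
    ∀ ρ : A →L[ℂ] ℂ, Tendsto (fun N : ℕ => (1 / (N : ℂ)) * ∑ n ∈ range N, (u n : ℂ) * ρ ((α^[n]) b))
      (atTop ⊓ 𝓟 Eᶜ) (nhds 0) := by
  have hu : ∀ n, ‖(u n : ℂ)‖ ≤ 1 := by
    intro n
    rw [Complex.norm_intCast]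
    exact_mod_cast hb n
  have hset : {b : A | ∀ φ : A → ℂ, Pool.Agent.X23.CA.IsSt φ → (∀ a, φ (α a) = φ a) →
      Pool.Agent.X23.CA.Sg α b φ} = {a : A | SingularAt α a} := by
    ext a
    constructor
    · intro h φ hφ
      exact h φ ⟨hφ.1, hφ.2.1, hφ.2.2.1, hφ.2.2.2⟩
    · intro h φ hφ
      exact h φ ⟨hφ.add, hφ.smul, hφ.pos, hφ.one⟩
  have hS' : b ∈ (Submodule.span ℂ {b : A | ∀ φ : A → ℂ, Pool.Agent.X23.CA.IsSt φ →
      (∀ a, φ (α a) = φ a) → Pool.Agent.X23.CA.Sg α b φ}).topologicalClosure := by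
    rw [hset]
    exact hS
  -- quadratic phases
  have h1 : Windows E (fun (θ : ℝ × ℝ) n => (u n : ℂ) * e (θ.1 * (n : ℝ) ^ 2 + θ.2 * n)) α b ∧
      Means E (fun (θ : ℝ × ℝ) n => (u n : ℂ) * e (θ.1 * (n : ℝ) ^ 2 + θ.2 * n)) α b ∧
      LogMeans (fun (θ : ℝ × ℝ) n => (u n : ℂ) * e (θ.1 * (n : ℝ) ^ 2 + θ.2 * n)) α b := by
    set v : ℝ × ℝ → ℕ → ℂ := fun θ n => (u n : ℂ) * e (θ.1 * (n : ℝ) ^ 2 + θ.2 * n) with hv
    have hv1 : ∀ θ n, ‖v θ n‖ ≤ 1 := by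
      intro θ n
      rw [hv]
      simp only
      rw [norm_mul, norm_e, mul_one]
      exact hu n
    have hcorr : ∀ k : ℕ, 1 ≤ k → ∀ ε : ℝ, 0 < ε → ∀ᶠ N in flt E, ∀ θ, ‖L (natw N) N (cr (v θ) k)‖ ≤ ε := by
      intro k hk ε hε
      rw [flt_iff]
      obtain ⟨N₀, h⟩ := hE k hk ε hε
      refine ⟨N₀ + 1, fun N hN hNE θ => ?_⟩
      have hN0 : (0 : ℝ) < N := by exact_mod_cast (by omega : 0 < N)
      have h2 := h N (by omega) hNE (2 * θ.1 * k)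
      have e1 : ∑ n ∈ range N, cr (v θ) k n = e (θ.1 * (k : ℝ) ^ 2 + θ.2 * k) *
          Pool.Agent.Y842.PH.Cr u k N (2 * θ.1 * k) := by
        unfold Pool.Agent.Y842.PH.Cr cr
        rw [mul_sum]
        refine sum_congr rfl fun n _ => ?_
        rw [RCLike.inner_apply, hv]
        simp only
        rw [map_mul, e_conj, map_intCast, ← e_eq]
        have e2 : e (θ.1 * ((n + k : ℕ) : ℝ) ^ 2 + θ.2 * (n + k : ℕ)) * e (-(θ.1 * (n : ℝ) ^ 2 + θ.2 * n)) =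
            e (θ.1 * (k : ℝ) ^ 2 + θ.2 * k) * e (2 * θ.1 * k * n) := by
          rw [← e_add, ← e_add]
          congr 1
          push_cast
          ring
        linear_combination ((u n : ℂ) * (u (n + k) : ℂ)) * e2
      rw [L_nat, e1, smul_eq_mul, norm_mul, norm_mul, norm_e, one_mul, norm_div, norm_one, Complex.norm_natCast,
        div_mul_eq_mul_div, one_mul, div_le_iff₀ hN0]
      exact h2
    have hw : Pool.Agent.X23.CA.Win E v α b := Pool.Agent.X23.CA.span_win hv1 hcorr hS'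
    have hm : Pool.Agent.X23.CA.Mean E v α b := Pool.Agent.X23.CA.win_mean hv1 hw
    exact ⟨hw, hm, Pool.Agent.X23.CA.mean_log hE0 hv1 hm⟩
  refine ⟨h1, ?_, ?_⟩
  · intro G hG hAP
    set v : Unit → ℕ → ℂ := fun _ n => (u n : ℂ) * G n with hv
    have hv1 : ∀ θ n, ‖v θ n‖ ≤ 1 := by
      intro θ n
      rw [hv]
      simp only
      rw [norm_mul]
      exact mul_le_one₀ (hu n) (norm_nonneg _) (hG n)
    have hcorr : ∀ k : ℕ, 1 ≤ k → ∀ ε : ℝ, 0 < ε → ∀ᶠ N in flt E, ∀ θ, ‖L (natw N) N (cr (v θ) k)‖ ≤ ε := by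
      intro k hk ε hε
      have h2 := kills_AP u hb E hE _ (hAP k hk) k hk ε hε
      filter_upwards [h2] with N h3 θ
      refine le_trans (le_of_eq ?_) h3
      congr 2
      funext n
      unfold cr
      rw [hv]
      simp only
      rw [RCLike.inner_apply, map_mul]
      ring
    have hw : Pool.Agent.X23.CA.Win E v α b := Pool.Agent.X23.CA.span_win hv1 hcorr hS'
    have hm : Pool.Agent.X23.CA.Mean E v α b := Pool.Agent.X23.CA.win_mean hv1 hw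
    exact ⟨hw, hm, Pool.Agent.X23.CA.mean_log hE0 hv1 hm⟩
  · intro ρ
    rw [Metric.tendsto_nhds]
    intro ε hε
    have h2 := h1.2.1 (ε / (2 * (‖ρ‖ + 1))) (by positivity)
    obtain ⟨N₀, h3⟩ := h2
    rw [eventually_inf_principal]
    filter_upwards [eventually_ge_atTop (N₀ + 1)] with N hN hNE
    have hN0 : (0 : ℝ) < N := by exact_mod_cast (by omega : 0 < N)
    have h4 := h3 N (by omega) hNE (0, 0)
    simp only [zero_mul, add_zero] at h4
    have e0 : e 0 = 1 := by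
      unfold e
      simp
    rw [e0] at h4
    simp only [mul_one] at h4
    have e1 : ∑ n ∈ range N, (u n : ℂ) * ρ ((α^[n]) b) = ρ (∑ n ∈ range N, (u n : ℂ) • (α^[n]) b) := by
      rw [map_sum]
      refine sum_congr rfl fun n _ => ?_
      rw [map_smul, smul_eq_mul]
    rw [dist_eq_norm, sub_zero, e1, norm_mul, norm_div, norm_one, Complex.norm_natCast, div_mul_eq_mul_div,
      one_mul, div_lt_iff₀ hN0]
    have h5 := ρ.le_opNorm (∑ n ∈ range N, (u n : ℂ) • (α^[n]) b)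
    have h6 : ‖ρ‖ * (ε / (2 * (‖ρ‖ + 1))) ≤ ε / 2 := by
      rw [← mul_div_assoc, div_le_iff₀ (by positivity)]
      nlinarith [norm_nonneg ρ]
    have h7 := mul_le_mul_of_nonneg_left h4 (norm_nonneg ρ)
    have h8 := mul_le_mul_of_nonneg_right h6 hN0.le
    nlinarith

end

/-- **Theorem.** There is one set `E` of logarithmic density zero such that for `u = μ` and `u = λ`, for every
unital C*-algebra `A`, every unital *-homomorphism `α : A → A` and every `b` in the closed linear span of the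
elements whose spectral measures in all `α`-invariant states are singular:
(1) the windows, the means and the logarithmic means of `u(n) e(s n² + t n) αⁿ(b)` are small in norm, uniformly in
`s`, `t` (for windows and means along the `N ∉ E`);
(2) the same for `u(n) G(n) αⁿ(b)`, `G` any sequence bounded by one whose autocorrelations `G(n+k) conj G(n)`,
`k ≥ 1`, are almost periodic at each scale;
(3) `(1/N) ∑_{n < N} u(n) ρ(αⁿ b) → 0` as `N → ∞`, `N ∉ E`, for every bounded functional `ρ`. -/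
theorem result :
    ∃ E : Set ℕ, LogDensityZero E ∧ ∀ u : ℕ → ℤ,
      (u = (fun n => ArithmeticFunction.moebius n) ∨ u = (fun n => (-1) ^ ArithmeticFunction.cardFactors n)) →
      ∀ (A : Type u) [CStarAlgebra A] (α : A →⋆ₐ[ℂ] A) (b : A), InSingularSpan α b →
        (Windows E (fun (θ : ℝ × ℝ) n => (u n : ℂ) * e (θ.1 * (n : ℝ) ^ 2 + θ.2 * n)) α b ∧
          Means E (fun (θ : ℝ × ℝ) n => (u n : ℂ) * e (θ.1 * (n : ℝ) ^ 2 + θ.2 * n)) α b ∧
          LogMeans (fun (θ : ℝ × ℝ) n => (u n : ℂ) * e (θ.1 * (n : ℝ) ^ 2 + θ.2 * n)) α b) ∧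
        (∀ G : ℕ → ℂ, (∀ n, ‖G n‖ ≤ 1) →
          (∀ k : ℕ, 1 ≤ k → AlmostPeriodic (fun n => G (n + k) * (starRingEnd ℂ) (G n))) →
          Windows E (fun (_ : Unit) n => (u n : ℂ) * G n) α b ∧
            Means E (fun (_ : Unit) n => (u n : ℂ) * G n) α b ∧
            LogMeans (fun (_ : Unit) n => (u n : ℂ) * G n) α b) ∧
        ∀ ρ : A →L[ℂ] ℂ, Tendsto (fun N : ℕ => (1 / (N : ℂ)) * ∑ n ∈ range N, (u n : ℂ) * ρ ((α^[n]) b))
          (atTop ⊓ 𝓟 Eᶜ) (nhds 0) := by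
  obtain ⟨E₁, hE₁, h1⟩ := Pool.Agent.Y842.PH.one_E (Pool.Agent.Y304.U.avc Pool.Agent.Y304.U.pw)
    Pool.Agent.TH823.MRS.mob Pool.Agent.TH823.MRS.mob_bdd Pool.Agent.TH823.MRS.mob_flip
    Pool.Agent.TH823.MRS.expo_mob
  obtain ⟨E₂, hE₂, h2⟩ := Pool.Agent.Y842.PH.one_E (Pool.Agent.Y304.U.avc Pool.Agent.Y304.U.pw)
    Pool.Agent.H376R2.MR.lam Pool.Agent.Y842.EL.abs_lam Pool.Agent.TH823.MRS.lam_flip Pool.Agent.TH823.MRS.expo_lam
  have hE : LogDensityZero (E₁ ∪ E₂) := Pool.Agent.Y842.EL.LZ_union hE₁ hE₂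
  refine ⟨E₁ ∪ E₂, hE, ?_⟩
  intro u hu A _ α b hS
  rcases hu with rfl | rfl
  · exact core Pool.Agent.TH823.MRS.mob Pool.Agent.TH823.MRS.mob_bdd (E₁ ∪ E₂) hE
      (fun h hh ε hε => by
        obtain ⟨N₀, h3⟩ := h1 h hh ε hε
        exact ⟨N₀, fun N hN hNE α => h3 N hN (fun h4 => hNE (Or.inl h4)) α⟩) α b hS
  · exact core Pool.Agent.H376R2.MR.lam Pool.Agent.Y842.EL.abs_lam (E₁ ∪ E₂) hE
      (fun h hh ε hε => by
        obtain ⟨N₀, h3⟩ := h2 h hh ε hε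
        exact ⟨N₀, fun N hN hNE α => h3 N hN (fun h4 => hNE (Or.inr h4)) α⟩) α b hS

end Pool.Agent.Results.MP_7a8f48_an.SingularStates
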